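import Mathlib
import Pool.Agent.H374.TF8

/-!
Two families with intersections of size two on an arbitrary ground set: the bound
`∑ i ∈ [2, a], 2^(i-2) * C(a+b-2i, a-i)` under a matching condition, in skew form.
-/

set_option autoImplicit false

namespace Pool.Agent.Results.MP_20855c_co.DefectMatching

open Finset

/-- The sets `A k ∩ B k`, `k ∈ K`, are pairwise disjoint. -/
def IsMatching {ι β : Type} [DecidableEq β] (A B : ι → Finset β) (K : Finset ι) : Prop :=
  ∀ k ∈ K, ∀ l ∈ K, k ≠ l → Disjoint (A k ∩ B k) (A l ∩ B l)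

/-- Let `Y` contain all sets `A k ∩ B k`, and let `m` be at least the largest number of pairwise
disjoint sets `A k ∩ B k`. If the traces on `Y` of the sets `A i ∩ B j`, `i < j`, are not contained in
any `A k ∩ B k`, and if for each `i` there are `m` pairwise disjoint sets `A k ∩ B k` whose union has
at most as many points outside of `A i ∪ B i` as `A i ∪ B i` has outside of `Y`, then the family has
at most `S(a,b)` members. -/
theorem result (a b : ℕ) (ha : 2 ≤ a) (hab : a ≤ b) (ι : Type) [Fintype ι] [LinearOrder ι]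
    (β : Type) [DecidableEq β] (A B : ι → Finset β)
    (hs : ∀ i, (A i).card = a ∧ (B i).card = b ∧ (A i ∩ B i).card = 2)
    (Y : Finset β) (hPY : ∀ i, A i ∩ B i ⊆ Y)
    (hskew : ∀ i j k, i < j → ¬ (A i ∩ B j ∩ Y ⊆ A k ∩ B k))
    (m : ℕ) (hmax : ∀ K : Finset ι, IsMatching A B K → K.card ≤ m)
    (hdef : ∀ i, ∃ K : Finset ι, K.card = m ∧ IsMatching A B K ∧
      (K.biUnion (fun k => A k ∩ B k) \ (A i ∪ B i)).card ≤ ((A i ∪ B i) \ Y).card) :
    Fintype.card ι ≤ ∑ i ∈ Finset.Icc 2 a, 2 ^ (i - 2) * (a + b - 2 * i).choose (a - i) := by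
  classical
  rcases isEmpty_or_nonempty ι with he | hne
  · rw [Fintype.card_eq_zero]
    exact Nat.zero_le _
  have hn : ∀ i, (A i ∪ B i).card = a + b - 2 := by
    intro i
    have := card_union_add_card_inter (A i) (B i)
    rw [(hs i).1, (hs i).2.1, (hs i).2.2] at this
    omega
  have hd : ∀ i, (A i \ B i).card = a - 2 := by
    intro i
    have := card_sdiff_add_card_inter (A i) (B i)
    rw [(hs i).1, (hs i).2.2] at this
    omega
  have h1 := H374.TF.uni_field2 (F := AlgebraicClosure (ZMod 2)) (a + b - 2) (a - 2) m A B hn hd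
    (fun i => (hs i).2.2) Y hPY hmax hdef hskew
  have h2 := H374.TF.num a b ha hab
  omega

end Pool.Agent.Results.MP_20855c_co.DefectMatching
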