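import Mathlib
import Pool.Agent.H374.TF9

/-!
Two families with intersections of size two: a bound for all systems on a ground set with `a + b`
points.
-/

set_option autoImplicit false

namespace Pool.Agent.Results.MP_20855c_co.GroundSizeSum

open Finset

/-- `S(a,b) = ∑_{i=2}^{a} 2^{i-2} (a+b-2i choose a-i)` -/
def S (a b : ℕ) : ℕ := ∑ i ∈ Finset.Icc 2 a, 2 ^ (i - 2) * (a + b - 2 * i).choose (a - i)

/-- the pairs `(A i, B i)` form an `(a,b)`-system -/
def IsSystem (a b : ℕ) {ι β : Type} [DecidableEq β] (A B : ι → Finset β) : Prop :=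
  (∀ i, (A i).card = a ∧ (B i).card = b ∧ (A i ∩ B i).card = 2) ∧
    ∀ i j k, i ≠ j → ¬ A i ∩ B j ⊆ A k ∩ B k

theorem result (a b : ℕ) (ha : 2 ≤ a) (hab : a ≤ b) (ι : Type) [Fintype ι]
    (β : Type) [DecidableEq β] (A B : ι → Finset β) (hs : IsSystem a b A B)
    (X : Finset β) (hX : ∀ i, A i ∪ B i ⊆ X) (hXc : X.card = a + b) :
    ((a + b - 2) * (a + b - 3) - (a - 2) * (b - 2)) * Fintype.card ι ≤
      (a + b) * (a + b - 1) * S a b := by
  exact H374.TF.Small.part4 a b ha hab ι β A B hs X hX hXc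

end Pool.Agent.Results.MP_20855c_co.GroundSizeSum
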